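import Mathlib

open MeasureTheory ProbabilityTheory Filter Topology
open scoped ENNReal

namespace Pool.Agent.Lib.MP_f48e0c_pr

/-- Populations (and offspring vectors) are finitely supported functions `X → ℕ`; they carry the
discrete sigma-algebra. -/
instance instMeasurableSpacePop (X : Type*) : MeasurableSpace (X →₀ ℕ) := ⊤

/-- The offspring generating function `G_x(s) = ∑_j p_{x j} ∏_y s_y ^ j_y`. -/
noncomputable def genFun {X : Type*} (μ : X → PMF (X →₀ ℕ)) (s : X → ℝ) (x : X) : ℝ :=
  ∑' j : X →₀ ℕ, (μ x j).toReal * j.prod (fun y k => s y ^ k)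

/-- The set `S` of fixed points of the generating function in the cube `[0,1]^X`. -/
def fixedPoints {X : Type*} (μ : X → PMF (X →₀ ℕ)) : Set (X → ℝ) :=
  {s | (∀ x, 0 ≤ s x ∧ s x ≤ 1) ∧ genFun μ s = s}

/-- The law of the array of independent offspring vectors: `ω (n, y, i)` is the offspring vector of
the `i`-th individual of type `y` in generation `n`, it has law `μ y`. -/
noncomputable def offspringLaw {X : Type*} (μ : X → PMF (X →₀ ℕ)) :
    Measure (ℕ × X × ℕ → (X →₀ ℕ)) :=
  Measure.infinitePi (fun k : ℕ × X × ℕ => (μ k.2.1).toMeasure)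

/-- The population at generation `n`, started from one individual of type `x`. -/
noncomputable def pop {X : Type*} (x : X) (ω : ℕ × X × ℕ → (X →₀ ℕ)) : ℕ → (X →₀ ℕ)
  | 0 => Finsupp.single x 1
  | n + 1 => ∑ y ∈ (pop x ω n).support, ∑ i ∈ Finset.range (pop x ω n y), ω (n, y, i)

open Classical in
/-- The number of individuals whose type lies in `A`. -/
noncomputable def countIn {X : Type*} (A : Set X) (z : X →₀ ℕ) : ℕ :=
  ∑ y ∈ z.support with y ∈ A, z y

/-- `q_x(A)`: the probability that the number of individuals with type in `A` tends to `0`,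
starting from one individual of type `x`. -/
noncomputable def extinctionProb {X : Type*} (μ : X → PMF (X →₀ ℕ)) (A : Set X) (x : X) : ℝ :=
  (offspringLaw μ).real {ω | Tendsto (fun n => countIn A (pop x ω n)) atTop (𝓝 0)}

/-- The set `Ext` of extinction probability vectors. -/
def extinctionVectors {X : Type*} (μ : X → PMF (X →₀ ℕ)) : Set (X → ℝ) :=
  {q | ∃ A : Set X, q = extinctionProb μ A}

end Pool.Agent.Lib.MP_f48e0c_pr
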