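import Mathlib
import Pool.Agent.Lib.MP_f48e0c_pr.Defs

open MeasureTheory ProbabilityTheory Filter Topology
open scoped ENNReal

namespace Pool.Agent.Lib.MP_f48e0c_pr

section Prob

variable {X : Type*}

instance : DiscreteMeasurableSpace (X →₀ ℕ) := ⟨fun _ => trivial⟩

instance (μ : X → PMF (X →₀ ℕ)) : IsProbabilityMeasure (offspringLaw μ) := by
  unfold offspringLaw; infer_instance

/-- multiplicative weight -/
noncomputable def W {R : Type*} [CommMonoid R] (v : X → R) (z : X →₀ ℕ) : R :=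
  z.prod (fun y k => v y ^ k)

lemma W_zero {R : Type*} [CommMonoid R] (v : X → R) : W v 0 = 1 := by
  simp [W]

lemma W_single {R : Type*} [CommMonoid R] (v : X → R) (x : X) : W v (Finsupp.single x 1) = v x := by
  simp [W]

lemma W_add {R : Type*} [CommMonoid R] (v : X → R) (z z' : X →₀ ℕ) :
    W v (z + z') = W v z * W v z' := by
  classical
  unfold W
  exact Finsupp.prod_add_index' (fun a => pow_zero _) (fun a b c => pow_add _ _ _)

lemma W_sum {R : Type*} [CommMonoid R] (v : X → R) {ι : Type*} (s : Finset ι) (g : ι → X →₀ ℕ) :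
    W v (∑ i ∈ s, g i) = ∏ i ∈ s, W v (g i) := by
  classical
  unfold W
  exact (Finsupp.prod_finsetSum_index (fun a => pow_zero _) (fun a b c => pow_add _ _ _)).symm

lemma W_one {R : Type*} [CommMonoid R] (z : X →₀ ℕ) : W (fun _ => (1 : R)) z = 1 := by
  simp [W]

lemma W_mul {R : Type*} [CommMonoid R] (v w : X → R) (z : X →₀ ℕ) :
    W (fun x => v x * w x) z = W v z * W w z := by
  simp only [W, mul_pow, Finsupp.prod_mul]

lemma W_pow {R : Type*} [CommMonoid R] (v : X → R) (k : ℕ) (z : X →₀ ℕ) :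
    W (fun x => v x ^ k) z = W v z ^ k := by
  simp only [W, Finsupp.prod, ← Finset.prod_pow]
  refine Finset.prod_congr rfl fun y _ => ?_
  rw [← pow_mul, ← pow_mul, mul_comm]

/-- sigma-algebra generated by the coordinates in `S` -/
@[instance_reducible] def sig (S : Set (ℕ × X × ℕ)) : MeasurableSpace (ℕ × X × ℕ → (X →₀ ℕ)) :=
  ⨆ k ∈ S, MeasurableSpace.comap (fun ω : ℕ × X × ℕ → (X →₀ ℕ) => ω k) ⊤

lemma sig_le (S : Set (ℕ × X × ℕ)) :
    sig S ≤ (MeasurableSpace.pi : MeasurableSpace (ℕ × X × ℕ → (X →₀ ℕ))) := by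
  refine iSup₂_le fun k _ => ?_
  exact (measurable_pi_apply k).comap_le

lemma sig_mono {S T : Set (ℕ × X × ℕ)} (h : S ⊆ T) : sig S ≤ sig T :=
  iSup₂_le fun k hk => le_iSup₂_of_le k (h hk) le_rfl

lemma measurable_coord {S : Set (ℕ × X × ℕ)} {k : ℕ × X × ℕ} (hk : k ∈ S) :
    Measurable[sig S] (fun ω : ℕ × X × ℕ → (X →₀ ℕ) => ω k) := by
  have : Measurable[MeasurableSpace.comap (fun ω : ℕ × X × ℕ → (X →₀ ℕ) => ω k) ⊤]
      (fun ω : ℕ × X × ℕ → (X →₀ ℕ) => ω k) := comap_measurable _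
  exact this.mono (le_iSup₂_of_le k hk le_rfl) le_rfl

def pastSet (X : Type*) (n : ℕ) : Set (ℕ × X × ℕ) := {k | k.1 < n}

def presentSet (X : Type*) (n : ℕ) : Set (ℕ × X × ℕ) := {k | k.1 = n}

lemma measurable_pop [Countable X] (x : X) (n : ℕ) :
    Measurable[sig (pastSet X n)] (fun ω : ℕ × X × ℕ → (X →₀ ℕ) => pop x ω n) := by
  induction n with
  | zero => exact @measurable_const _ _ _ (sig (pastSet X 0)) _
  | succ n ih =>
    have ih' : Measurable[sig (pastSet X (n + 1))]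
        (fun ω : ℕ × X × ℕ → (X →₀ ℕ) => pop x ω n) :=
      ih.mono (sig_mono fun k hk => Nat.lt_succ_of_lt hk) le_rfl
    refine @measurable_to_countable' _ _ _ _ (sig (pastSet X (n + 1))) _ fun z' => ?_
    have hF : ∀ z : X →₀ ℕ, Measurable[sig (pastSet X (n + 1))]
        (fun ω : ℕ × X × ℕ → (X →₀ ℕ) =>
          ∑ y ∈ z.support, ∑ i ∈ Finset.range (z y), ω (n, y, i)) := by
      intro z
      refine @Finset.measurable_fun_sum _ _ _ _ _ _ (sig (pastSet X (n + 1))) _ _ fun y _ => ?_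
      refine @Finset.measurable_fun_sum _ _ _ _ _ _ (sig (pastSet X (n + 1))) _ _ fun i _ => ?_
      exact measurable_coord (Nat.lt_succ_self n)
    have : (fun ω : ℕ × X × ℕ → (X →₀ ℕ) => pop x ω (n + 1)) ⁻¹' {z'} =
        ⋃ z : X →₀ ℕ, ((fun ω : ℕ × X × ℕ → (X →₀ ℕ) => pop x ω n) ⁻¹' {z}) ∩
          ((fun ω : ℕ × X × ℕ → (X →₀ ℕ) =>
          ∑ y ∈ z.support, ∑ i ∈ Finset.range (z y), ω (n, y, i)) ⁻¹' {z'}) := by
      ext ω
      simp only [Set.mem_preimage, Set.mem_singleton_iff, Set.mem_iUnion, Set.mem_inter_iff, pop]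
      constructor
      · intro h
        exact ⟨pop x ω n, rfl, h⟩
      · rintro ⟨z, hz, h⟩
        rw [hz]; exact h
    rw [this]
    refine @MeasurableSet.iUnion _ _ (sig (pastSet X (n + 1))) _ _ fun z => ?_
    exact @MeasurableSet.inter _ (sig (pastSet X (n + 1))) _ _ (ih' trivial) (hF z trivial)

/-- `ENNReal`-valued generating function -/
noncomputable def GE (μ : X → PMF (X →₀ ℕ)) (v : X → ℝ≥0∞) (x : X) : ℝ≥0∞ :=
  ∫⁻ j, W v j ∂(μ x).toMeasure

lemma lintegral_coord (μ : X → PMF (X →₀ ℕ)) (k : ℕ × X × ℕ) (v : X → ℝ≥0∞) :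
    ∫⁻ ω, W v (ω k) ∂(offspringLaw μ) = GE μ v k.2.1 := by
  have h1 : (offspringLaw μ).map (fun ω => ω k) = (μ k.2.1).toMeasure := by
    unfold offspringLaw
    exact Measure.infinitePi_map_eval (fun k : ℕ × X × ℕ => (μ k.2.1).toMeasure) k
  unfold GE
  rw [← h1, lintegral_map (Measurable.of_discrete) (measurable_pi_apply k)]

/-- the finite set of labels used by the population `z` at generation `n` -/
def labels (n : ℕ) (z : X →₀ ℕ) : Finset (ℕ × X × ℕ) :=
  (z.support.sigma (fun y => Finset.range (z y))).map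
    ⟨fun p : (Σ _ : X, ℕ) => (n, p.1, p.2), by
      rintro ⟨a, b⟩ ⟨c, d⟩ h
      simp only [Prod.mk.injEq, true_and] at h
      obtain ⟨rfl, rfl⟩ := h
      rfl⟩

lemma prod_labels {R : Type*} [CommMonoid R] (n : ℕ) (z : X →₀ ℕ) (h : ℕ × X × ℕ → R) :
    ∏ k ∈ labels n z, h k = ∏ y ∈ z.support, ∏ i ∈ Finset.range (z y), h (n, y, i) := by
  unfold labels
  rw [Finset.prod_map, Finset.prod_sigma]
  rfl

lemma labels_present (n : ℕ) (z : X →₀ ℕ) {k : ℕ × X × ℕ} (hk : k ∈ labels n z) :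
    k ∈ presentSet X n := by
  unfold labels at hk
  rw [Finset.mem_map] at hk
  obtain ⟨p, _, rfl⟩ := hk
  rfl

lemma iIndepFun_coord (μ : X → PMF (X →₀ ℕ)) :
    iIndepFun (fun (k : ℕ × X × ℕ) (ω : ℕ × X × ℕ → (X →₀ ℕ)) => ω k) (offspringLaw μ) := by
  unfold offspringLaw
  exact iIndepFun_infinitePi (P := fun k : ℕ × X × ℕ => (μ k.2.1).toMeasure)
    (X := fun _ z => z) (fun _ => measurable_id)

lemma indep_past_present (μ : X → PMF (X →₀ ℕ)) (n : ℕ) :
    Indep (sig (pastSet X n)) (sig (presentSet X n)) (offspringLaw μ) := by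
  unfold sig
  refine indep_iSup_of_disjoint (fun k => (measurable_pi_apply k).comap_le)
    (iIndepFun_coord μ).iIndep ?_
  rw [Set.disjoint_left]
  intro k hk hk'
  simp only [pastSet, presentSet, Set.mem_ofPred_eq] at hk hk'
  omega

lemma key [Countable X] (μ : X → PMF (X →₀ ℕ)) (x : X) (n : ℕ)
    (f : (ℕ × X × ℕ → (X →₀ ℕ)) → ℝ≥0∞) (hf : Measurable[sig (pastSet X n)] f)
    (v : X → ℝ≥0∞) :
    ∫⁻ ω, f ω * W v (pop x ω (n + 1)) ∂(offspringLaw μ) =
      ∫⁻ ω, f ω * W (GE μ v) (pop x ω n) ∂(offspringLaw μ) := by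
  classical
  set P := offspringLaw μ with hP
  let ind : (X →₀ ℕ) → (ℕ × X × ℕ → (X →₀ ℕ)) → ℝ≥0∞ :=
    fun z => ((fun ω : ℕ × X × ℕ → (X →₀ ℕ) => pop x ω n) ⁻¹' {z}).indicator (fun _ => 1)
  have hind : ∀ z, Measurable[sig (pastSet X n)] (ind z) := by
    intro z
    refine Measurable.indicator (m := sig (pastSet X n)) ?_ ?_
    · exact @measurable_const _ _ _ (sig (pastSet X n)) 1
    · exact measurable_pop x n trivial
  have hg : ∀ z, Measurable[sig (pastSet X n)] (fun ω => f ω * ind z ω) := fun z =>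
    Measurable.fun_mul (m := sig (pastSet X n)) hf (hind z)
  have hsum : ∀ (ω : ℕ × X × ℕ → (X →₀ ℕ)) (H : (X →₀ ℕ) → ℝ≥0∞),
      f ω * H (pop x ω n) = ∑' z, (f ω * ind z ω) * H z := by
    intro ω H
    rw [tsum_eq_single (pop x ω n)]
    · simp [ind]
    · intro z hz
      have : ω ∉ (fun ω : ℕ × X × ℕ → (X →₀ ℕ) => pop x ω n) ⁻¹' {z} := by
        simp only [Set.mem_preimage, Set.mem_singleton_iff]
        exact fun h => hz h.symm
      simp [ind, Set.indicator_of_notMem this]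
  have hmeas : ∀ z, Measurable (fun ω : ℕ × X × ℕ → (X →₀ ℕ) =>
      ∏ k ∈ labels n z, W v (ω k)) := fun z =>
    Finset.measurable_fun_prod _ fun k _ =>
      (Measurable.of_discrete (f := W v)).comp (measurable_pi_apply k)
  have hmeas' : ∀ z, Measurable[sig (presentSet X n)] (fun ω : ℕ × X × ℕ → (X →₀ ℕ) =>
      ∏ k ∈ labels n z, W v (ω k)) := fun z =>
    Finset.measurable_fun_prod (m := sig (presentSet X n)) _ fun k hk =>
      (Measurable.of_discrete (f := W v)).comp (measurable_coord (labels_present n z hk))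
  have hprod : ∀ z, ∫⁻ ω, ∏ k ∈ labels n z, W v (ω k) ∂P = W (GE μ v) z := by
    intro z
    have := lintegral_prod_eq_prod_lintegral_of_indepFun (μ := P) (labels n z)
      (fun k ω => W v (ω k))
      ((iIndepFun_coord μ).comp (fun _ => W v) (fun _ => Measurable.of_discrete))
      (fun k => (Measurable.of_discrete (f := W v)).comp (measurable_pi_apply k))
    rw [this]
    simp_rw [hP, lintegral_coord]
    rw [prod_labels]
    simp [W, Finsupp.prod]
  have h1 : ∀ ω, f ω * W v (pop x ω (n + 1)) =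
      ∑' z, (f ω * ind z ω) * ∏ k ∈ labels n z, W v (ω k) := by
    intro ω
    rw [← hsum ω (fun z => ∏ k ∈ labels n z, W v (ω k))]
    congr 1
    rw [prod_labels]
    simp only [pop]
    rw [W_sum]
    refine Finset.prod_congr rfl fun y _ => ?_
    rw [W_sum]
  simp_rw [h1]
  rw [lintegral_tsum (fun z => (((hg z).mono (sig_le _) le_rfl).fun_mul (hmeas z)).aemeasurable)]
  have h2 : ∀ z, ∫⁻ ω, (f ω * ind z ω) * ∏ k ∈ labels n z, W v (ω k) ∂P =
      ∫⁻ ω, (f ω * ind z ω) * W (GE μ v) z ∂P := by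
    intro z
    rw [lintegral_mul_eq_lintegral_mul_lintegral_of_independent_measurableSpace
      (sig_le _) (sig_le _) (indep_past_present μ n) (hg z) (hmeas' z), hprod,
      lintegral_mul_const _ ((hg z).mono (sig_le _) le_rfl)]
  simp_rw [h2]
  rw [← lintegral_tsum (fun z => (((hg z).mono (sig_le _) le_rfl).mul_const _).aemeasurable)]
  refine lintegral_congr fun ω => ?_
  rw [← hsum ω (fun z => W (GE μ v) z)]

/-- nested expectations -/
noncomputable def nest (μ : X → PMF (X →₀ ℕ)) (c : ℕ → X → ℝ≥0∞) :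
    ℕ → (X → ℝ≥0∞) → (X → ℝ≥0∞)
  | 0, v => v
  | n + 1, v => nest μ c n (fun x => c n x * GE μ v x)

lemma measurable_W_pop [Countable X] (x : X) (v : X → ℝ≥0∞) {m n : ℕ} (h : m ≤ n) :
    Measurable[sig (pastSet X n)] (fun ω : ℕ × X × ℕ → (X →₀ ℕ) => W v (pop x ω m)) := by
  refine (Measurable.of_discrete (f := W v)).comp ?_
  exact (measurable_pop x m).mono (sig_mono fun k hk => lt_of_lt_of_le hk h) le_rfl

lemma lintegral_nest [Countable X] (μ : X → PMF (X →₀ ℕ)) (x : X) (c : ℕ → X → ℝ≥0∞) (N : ℕ)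
    (v : X → ℝ≥0∞) :
    ∫⁻ ω, (∏ m ∈ Finset.range N, W (c m) (pop x ω m)) * W v (pop x ω N) ∂(offspringLaw μ) =
      nest μ c N v x := by
  induction N generalizing v with
  | zero => simp [nest, pop, W_single]
  | succ N ih =>
    rw [key μ x N (fun ω => ∏ m ∈ Finset.range (N + 1), W (c m) (pop x ω m))
      (Finset.measurable_fun_prod (m := sig (pastSet X N)) _ fun m hm =>
        measurable_W_pop x _ (Nat.lt_succ_iff.1 (Finset.mem_range.1 hm))) v]
    simp only [nest]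
    rw [← ih]
    refine lintegral_congr fun ω => ?_
    rw [Finset.prod_range_succ, W_mul, mul_assoc]

lemma nest_one (μ : X → PMF (X →₀ ℕ)) (c : ℕ → X → ℝ≥0∞) (n : ℕ) (hc : ∀ m < n, c m = 1)
    (v : X → ℝ≥0∞) : nest μ c n v = (GE μ)^[n] v := by
  induction n generalizing v with
  | zero => rfl
  | succ n ih =>
    simp only [nest, Function.iterate_succ, Function.comp]
    rw [ih (fun m hm => hc m (Nat.lt_succ_of_lt hm))]
    congr 1
    ext x
    rw [hc n (Nat.lt_succ_self n)]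
    simp

lemma nest_add (μ : X → PMF (X →₀ ℕ)) (c : ℕ → X → ℝ≥0∞) (d : X → ℝ≥0∞) (n K : ℕ)
    (hc : ∀ m, n ≤ m → c m = d)
    (v : X → ℝ≥0∞) :
    nest μ c (n + K) v = nest μ c n ((fun u x => d x * GE μ u x)^[K] v) := by
  induction K generalizing v with
  | zero => rfl
  | succ K ih =>
    rw [← add_assoc]
    simp only [nest, Function.iterate_succ, Function.comp]
    rw [ih]
    rw [hc (n + K) (Nat.le_add_right n K)]

/-- the cube `[0,1]^X` -/
def Cube (X : Type*) : Set (X → ℝ) := {s | ∀ x, 0 ≤ s x ∧ s x ≤ 1}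

lemma W_nonneg {s : X → ℝ} (hs : ∀ x, 0 ≤ s x) (z : X →₀ ℕ) : 0 ≤ W s z :=
  Finset.prod_nonneg fun y _ => pow_nonneg (hs y) _

lemma W_le_one {s : X → ℝ} (hs : s ∈ Cube X) (z : X →₀ ℕ) : W s z ≤ 1 :=
  Finset.prod_le_one (fun y _ => pow_nonneg (hs y).1 _)
    (fun y _ => pow_le_one₀ (hs y).1 (hs y).2)

lemma W_mono {s t : X → ℝ} (hs : ∀ x, 0 ≤ s x) (h : ∀ x, s x ≤ t x) (z : X →₀ ℕ) :
    W s z ≤ W t z :=
  Finset.prod_le_prod (fun y _ => pow_nonneg (hs y) _)
    (fun y _ => pow_le_pow_left₀ (hs y) (h y) _)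

lemma ofReal_W {s : X → ℝ} (hs : ∀ x, 0 ≤ s x) (z : X →₀ ℕ) :
    ENNReal.ofReal (W s z) = W (fun x => ENNReal.ofReal (s x)) z := by
  simp only [W, Finsupp.prod]
  rw [ENNReal.ofReal_prod_of_nonneg (fun y _ => pow_nonneg (hs y) _)]
  exact Finset.prod_congr rfl fun y _ => ENNReal.ofReal_pow (hs y) _

lemma summable_pmf (p : PMF (X →₀ ℕ)) : Summable (fun j => (p j).toReal) :=
  ENNReal.summable_toReal p.tsum_coe_ne_top

lemma tsum_pmf (p : PMF (X →₀ ℕ)) : ∑' j, (p j).toReal = 1 := by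
  rw [← ENNReal.tsum_toReal_eq (fun a => p.apply_ne_top a), p.tsum_coe]; rfl

lemma summable_W (p : PMF (X →₀ ℕ)) {s : X → ℝ} (hs : s ∈ Cube X) :
    Summable (fun j => (p j).toReal * W s j) := by
  refine Summable.of_nonneg_of_le (fun j => mul_nonneg ENNReal.toReal_nonneg
    (W_nonneg (fun x => (hs x).1) j)) (fun j => ?_) (summable_pmf p)
  exact mul_le_of_le_one_right ENNReal.toReal_nonneg (W_le_one hs j)

lemma genFun_eq (μ : X → PMF (X →₀ ℕ)) (s : X → ℝ) (x : X) :
    genFun μ s x = ∑' j, (μ x j).toReal * W s j := rfl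

lemma genFun_mono (μ : X → PMF (X →₀ ℕ)) {s t : X → ℝ} (hs : s ∈ Cube X) (ht : t ∈ Cube X)
    (h : ∀ x, s x ≤ t x) (x : X) : genFun μ s x ≤ genFun μ t x := by
  rw [genFun_eq, genFun_eq]
  refine (summable_W _ hs).tsum_le_tsum (fun j => ?_) (summable_W _ ht)
  exact mul_le_mul_of_nonneg_left (W_mono (fun x => (hs x).1) h j) ENNReal.toReal_nonneg

lemma genFun_mem (μ : X → PMF (X →₀ ℕ)) {s : X → ℝ} (hs : s ∈ Cube X) :
    genFun μ s ∈ Cube X := by
  intro x
  rw [genFun_eq]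
  refine ⟨tsum_nonneg fun j => mul_nonneg ENNReal.toReal_nonneg
    (W_nonneg (fun x => (hs x).1) j), ?_⟩
  rw [← tsum_pmf (μ x)]
  refine (summable_W _ hs).tsum_le_tsum (fun j => ?_) (summable_pmf _)
  exact mul_le_of_le_one_right ENNReal.toReal_nonneg (W_le_one hs j)

lemma genFun_tendsto (μ : X → PMF (X →₀ ℕ)) {ι : Type*} {l : Filter ι} {u : ι → X → ℝ}
    {s : X → ℝ} (hu : ∀ᶠ i in l, u i ∈ Cube X) (h : ∀ x, Tendsto (fun i => u i x) l (𝓝 (s x)))
    (x : X) : Tendsto (fun i => genFun μ (u i) x) l (𝓝 (genFun μ s x)) := by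
  simp only [genFun_eq]
  refine tendsto_tsum_of_dominated_convergence (summable_pmf (μ x)) (fun j => ?_) ?_
  · refine Tendsto.const_mul _ ?_
    simp only [W, Finsupp.prod]
    exact tendsto_finsetProd _ fun y _ => (h y).pow _
  · filter_upwards [hu] with i hi j
    rw [Real.norm_of_nonneg (mul_nonneg ENNReal.toReal_nonneg (W_nonneg (fun x => (hi x).1) j))]
    exact mul_le_of_le_one_right ENNReal.toReal_nonneg (W_le_one hi j)

lemma iter_mem (μ : X → PMF (X →₀ ℕ)) {s : X → ℝ} (hs : s ∈ Cube X) (n : ℕ) :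
    (genFun μ)^[n] s ∈ Cube X := by
  induction n with
  | zero => exact hs
  | succ n ih => rw [Function.iterate_succ_apply']; exact genFun_mem μ ih

lemma iter_mono (μ : X → PMF (X →₀ ℕ)) {s t : X → ℝ} (hs : s ∈ Cube X) (ht : t ∈ Cube X)
    (h : ∀ x, s x ≤ t x) (n : ℕ) (x : X) : (genFun μ)^[n] s x ≤ (genFun μ)^[n] t x := by
  induction n generalizing x with
  | zero => exact h x
  | succ n ih =>
    rw [Function.iterate_succ_apply', Function.iterate_succ_apply']
    exact genFun_mono μ (iter_mem μ hs n) (iter_mem μ ht n) ih x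

lemma iter_tendsto (μ : X → PMF (X →₀ ℕ)) {ι : Type*} {l : Filter ι} {u : ι → X → ℝ}
    {s : X → ℝ} (hu : ∀ᶠ i in l, u i ∈ Cube X) (h : ∀ x, Tendsto (fun i => u i x) l (𝓝 (s x)))
    (n : ℕ) (x : X) : Tendsto (fun i => (genFun μ)^[n] (u i) x) l (𝓝 ((genFun μ)^[n] s x)) := by
  induction n generalizing x with
  | zero => exact h x
  | succ n ih =>
    simp only [Function.iterate_succ_apply']
    exact genFun_tendsto μ (hu.mono fun i hi => iter_mem μ hi n) ih x

lemma GE_ofReal [Countable X] (μ : X → PMF (X →₀ ℕ)) {s : X → ℝ} (hs : s ∈ Cube X) (x : X) :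
    GE μ (fun y => ENNReal.ofReal (s y)) x = ENNReal.ofReal (genFun μ s x) := by
  unfold GE
  rw [lintegral_countable', genFun_eq, ENNReal.ofReal_tsum_of_nonneg
    (fun j => mul_nonneg ENNReal.toReal_nonneg (W_nonneg (fun x => (hs x).1) j))
    (summable_W _ hs)]
  refine tsum_congr fun j => ?_
  rw [PMF.toMeasure_apply_singleton _ _ (by trivial), ENNReal.ofReal_mul ENNReal.toReal_nonneg,
    ENNReal.ofReal_toReal (PMF.apply_ne_top _ _), ofReal_W (fun x => (hs x).1), mul_comm]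

lemma iter_ofReal [Countable X] (μ : X → PMF (X →₀ ℕ)) {s : X → ℝ} (hs : s ∈ Cube X) (n : ℕ) :
    (GE μ)^[n] (fun y => ENNReal.ofReal (s y)) = fun x => ENNReal.ofReal ((genFun μ)^[n] s x) := by
  induction n with
  | zero => rfl
  | succ n ih =>
    rw [Function.iterate_succ_apply', Function.iterate_succ_apply', ih]
    ext x
    exact GE_ofReal μ (iter_mem μ hs n) x

/-- generating function killed on `A` -/
noncomputable def killed (μ : X → PMF (X →₀ ℕ)) (A : Set X) (u : X → ℝ) (x : X) : ℝ :=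
  Aᶜ.indicator (fun _ => 1) x * genFun μ u x

/-- probability not to see `A` during the first `K` generations -/
noncomputable def avoid (μ : X → PMF (X →₀ ℕ)) (A : Set X) (K : ℕ) : X → ℝ :=
  (killed μ A)^[K] (Aᶜ.indicator (fun _ => 1))

lemma ind_mem (A : Set X) : (Aᶜ.indicator (fun _ => (1 : ℝ))) ∈ Cube X := by
  classical
  intro x
  by_cases h : x ∈ Aᶜ <;> simp [Set.indicator, h]

lemma killed_mem (μ : X → PMF (X →₀ ℕ)) (A : Set X) {u : X → ℝ} (hu : u ∈ Cube X) :
    killed μ A u ∈ Cube X := by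
  intro x
  have h1 := ind_mem A x
  have h2 := genFun_mem μ hu x
  exact ⟨mul_nonneg h1.1 h2.1, mul_le_one₀ h1.2 h2.1 h2.2⟩

lemma avoid_mem (μ : X → PMF (X →₀ ℕ)) (A : Set X) (K : ℕ) : avoid μ A K ∈ Cube X := by
  unfold avoid
  induction K with
  | zero => exact ind_mem A
  | succ K ih => rw [Function.iterate_succ_apply']; exact killed_mem μ A ih

lemma killed_ofReal [Countable X] (μ : X → PMF (X →₀ ℕ)) (A : Set X) (K : ℕ) :
    (fun (u : X → ℝ≥0∞) x => Aᶜ.indicator (fun _ => (1 : ℝ≥0∞)) x * GE μ u x)^[K]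
      (Aᶜ.indicator (fun _ => (1 : ℝ≥0∞))) =
      fun x => ENNReal.ofReal (avoid μ A K x) := by
  classical
  have hind : ∀ x, Aᶜ.indicator (fun _ => (1 : ℝ≥0∞)) x =
      ENNReal.ofReal (Aᶜ.indicator (fun _ => (1 : ℝ)) x) := by
    intro x
    by_cases h : x ∈ Aᶜ <;> simp [Set.indicator, h]
  unfold avoid
  induction K with
  | zero =>
    ext x
    exact hind x
  | succ K ih =>
    rw [Function.iterate_succ_apply', Function.iterate_succ_apply', ih]
    ext x
    have hm : (killed μ A)^[K] (Aᶜ.indicator (fun _ => 1)) ∈ Cube X := avoid_mem μ A K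
    simp only [killed]
    rw [GE_ofReal μ hm, hind, ENNReal.ofReal_mul (ind_mem A x).1]

lemma countIn_eq_zero (A : Set X) (z : X →₀ ℕ) : countIn A z = 0 ↔ ∀ y ∈ z.support, y ∉ A := by
  classical
  unfold countIn
  rw [Finset.sum_eq_zero_iff]
  constructor
  · intro h y hy hA
    exact (Finsupp.mem_support_iff.1 hy) (h y (Finset.mem_filter.2 ⟨hy, hA⟩))
  · intro h y hy
    rw [Finset.mem_filter] at hy
    exact absurd hy.2 (h y hy.1)

open Classical in
lemma W_ind (A : Set X) (z : X →₀ ℕ) :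
    W (Aᶜ.indicator (fun _ => (1 : ℝ≥0∞))) z = if countIn A z = 0 then 1 else 0 := by
  unfold W Finsupp.prod
  split_ifs with h
  · rw [countIn_eq_zero] at h
    refine Finset.prod_eq_one fun y hy => ?_
    have h1 : Aᶜ.indicator (fun _ => (1 : ℝ≥0∞)) y = 1 :=
      Set.indicator_of_mem (show y ∈ Aᶜ from h y hy) _
    simp only [h1, one_pow]
  · rw [countIn_eq_zero] at h
    push Not at h
    obtain ⟨y, hy, hA⟩ := h
    refine Finset.prod_eq_zero hy ?_
    have h1 : Aᶜ.indicator (fun _ => (1 : ℝ≥0∞)) y = 0 :=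
      Set.indicator_of_notMem (by simpa using hA) _
    simp only [h1]
    exact zero_pow (Finsupp.mem_support_iff.1 hy)

/-- no individual with type in `A` at the generations `n, ..., n + K` -/
def avoidEvent (x : X) (A : Set X) (n K : ℕ) : Set (ℕ × X × ℕ → (X →₀ ℕ)) :=
  {ω | ∀ m, n ≤ m → m ≤ n + K → countIn A (pop x ω m) = 0}

lemma measurable_pop' [Countable X] (x : X) (n : ℕ) :
    Measurable (fun ω : ℕ × X × ℕ → (X →₀ ℕ) => pop x ω n) :=
  (measurable_pop x n).mono (sig_le _) le_rfl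

lemma measurableSet_avoidEvent [Countable X] (x : X) (A : Set X) (n K : ℕ) :
    MeasurableSet (avoidEvent x A n K) := by
  unfold avoidEvent
  simp only [Set.ofPred_forall]
  refine MeasurableSet.iInter fun m => MeasurableSet.iInter fun _ => MeasurableSet.iInter fun _ => ?_
  exact measurable_pop' x m (t := {z | countIn A z = 0}) trivial

lemma measure_avoidEvent [Countable X] (μ : X → PMF (X →₀ ℕ)) (x : X) (A : Set X) (n K : ℕ) :
    offspringLaw μ (avoidEvent x A n K) =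
      ENNReal.ofReal ((genFun μ)^[n] (avoid μ A K) x) := by
  classical
  let d : X → ℝ≥0∞ := Aᶜ.indicator (fun _ => (1 : ℝ≥0∞))
  let c : ℕ → X → ℝ≥0∞ := fun m => if m < n then 1 else d
  have h := lintegral_nest μ x c (n + K) d
  rw [nest_add μ c d n K (fun m hm => if_neg (not_lt.2 hm)),
    nest_one μ c n (fun m hm => if_pos hm), killed_ofReal, iter_ofReal μ (avoid_mem μ A K)] at h
  simp only at h
  rw [← h, ← lintegral_indicator_one (measurableSet_avoidEvent x A n K)]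
  refine lintegral_congr fun ω => ?_
  have hprod : (∏ m ∈ Finset.range (n + K), W (c m) (pop x ω m)) * W d (pop x ω (n + K)) =
      ∏ m ∈ Finset.range (n + K + 1), W (c m) (pop x ω m) := by
    rw [Finset.prod_range_succ]
    congr 2
    simp [c]
  rw [hprod]
  by_cases hω : ω ∈ avoidEvent x A n K
  · rw [Set.indicator_of_mem hω]
    symm
    refine Finset.prod_eq_one fun m hm => ?_
    by_cases hmn : m < n
    · simp only [c, if_pos hmn]
      exact W_one _
    · simp only [c, if_neg hmn, d]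
      rw [W_ind, if_pos]
      exact hω m (not_lt.1 hmn) (Nat.lt_succ_iff.1 (Finset.mem_range.1 hm))
  · rw [Set.indicator_of_notMem hω]
    symm
    unfold avoidEvent at hω
    simp only [Set.mem_ofPred_eq] at hω
    push Not at hω
    obtain ⟨m, h1, h2, h3⟩ := hω
    refine Finset.prod_eq_zero (Finset.mem_range.2 (Nat.lt_succ_of_le h2)) ?_
    simp only [c, if_neg (not_lt.2 h1), d]
    rw [W_ind, if_neg h3]

lemma real_avoidEvent [Countable X] (μ : X → PMF (X →₀ ℕ)) (x : X) (A : Set X) (n K : ℕ) :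
    (offspringLaw μ).real (avoidEvent x A n K) = (genFun μ)^[n] (avoid μ A K) x := by
  rw [measureReal_def, measure_avoidEvent, ENNReal.toReal_ofReal
    (iter_mem μ (avoid_mem μ A K) n x).1]

/-- no individual with type in `A` from generation `n` on -/
def neverEvent (x : X) (A : Set X) (n : ℕ) : Set (ℕ × X × ℕ → (X →₀ ℕ)) :=
  {ω | ∀ m, n ≤ m → countIn A (pop x ω m) = 0}

lemma tendsto_avoidEvent [Countable X] (μ : X → PMF (X →₀ ℕ)) (x : X) (A : Set X) (n : ℕ) :
    Tendsto (fun K => (offspringLaw μ).real (avoidEvent x A n K)) atTop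
      (𝓝 ((offspringLaw μ).real (neverEvent x A n))) := by
  have hInter : neverEvent x A n = ⋂ K, avoidEvent x A n K := by
    ext ω
    simp only [neverEvent, avoidEvent, Set.mem_ofPred_eq, Set.mem_iInter]
    constructor
    · intro h K m h1 _
      exact h m h1
    · intro h m h1
      exact h m m h1 (Nat.le_add_left m n)
  have hanti : Antitone (avoidEvent x A n) := by
    intro K K' hK ω hω m h1 h2
    exact hω m h1 (by omega)
  have := tendsto_measure_iInter_atTop (μ := offspringLaw μ) (s := avoidEvent x A n)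
    (fun K => (measurableSet_avoidEvent x A n K).nullMeasurableSet) hanti
    ⟨0, measure_ne_top _ _⟩
  rw [← hInter] at this
  exact (ENNReal.tendsto_toReal (measure_ne_top _ _)).comp this

/-- probability never to see `A` -/
noncomputable def never (μ : X → PMF (X →₀ ℕ)) (A : Set X) (x : X) : ℝ :=
  (offspringLaw μ).real (neverEvent x A 0)

lemma tendsto_avoid [Countable X] (μ : X → PMF (X →₀ ℕ)) (x : X) (A : Set X) :
    Tendsto (fun K => avoid μ A K x) atTop (𝓝 (never μ A x)) := by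
  have h := tendsto_avoidEvent μ x A 0
  simp only [real_avoidEvent] at h
  exact h

lemma never_mem (μ : X → PMF (X →₀ ℕ)) (A : Set X) : never μ A ∈ Cube X :=
  fun _ => ⟨measureReal_nonneg, measureReal_le_one⟩

lemma real_neverEvent [Countable X] (μ : X → PMF (X →₀ ℕ)) (x : X) (A : Set X) (n : ℕ) :
    (offspringLaw μ).real (neverEvent x A n) = (genFun μ)^[n] (never μ A) x := by
  have h := tendsto_avoidEvent μ x A n
  simp only [real_avoidEvent] at h
  exact tendsto_nhds_unique h (iter_tendsto μ (Eventually.of_forall fun K => avoid_mem μ A K)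
    (fun x => tendsto_avoid μ x A) n x)

lemma tendsto_extinctionProb [Countable X] (μ : X → PMF (X →₀ ℕ)) (x : X) (A : Set X) :
    Tendsto (fun n => (genFun μ)^[n] (never μ A) x) atTop (𝓝 (extinctionProb μ A x)) := by
  have hU : {ω : ℕ × X × ℕ → (X →₀ ℕ) | Tendsto (fun n => countIn A (pop x ω n)) atTop (𝓝 0)} =
      ⋃ n, neverEvent x A n := by
    ext ω
    simp only [neverEvent, Set.mem_ofPred_eq, Set.mem_iUnion]
    rw [nhds_discrete, tendsto_pure, eventually_atTop]
  have hmono : Monotone (neverEvent x A) := by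
    intro K K' hK ω hω m h1
    exact hω m (by omega)
  have := tendsto_measure_iUnion_atTop (μ := offspringLaw μ) hmono
  rw [← hU] at this
  have h2 := (ENNReal.tendsto_toReal (measure_ne_top _ _)).comp this
  unfold extinctionProb
  refine h2.congr fun n => ?_
  exact real_neverEvent μ x A n

lemma extinctionProb_mem (μ : X → PMF (X →₀ ℕ)) (A : Set X) : extinctionProb μ A ∈ Cube X :=
  fun _ => ⟨measureReal_nonneg, measureReal_le_one⟩

lemma iter_never_le [Countable X] (μ : X → PMF (X →₀ ℕ)) (x : X) (A : Set X) (n : ℕ) :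
    (genFun μ)^[n] (never μ A) x ≤ extinctionProb μ A x := by
  rw [← real_neverEvent]
  unfold extinctionProb
  refine measureReal_mono ?_ (measure_ne_top _ _)
  intro ω hω
  simp only [Set.mem_ofPred_eq]
  rw [nhds_discrete, tendsto_pure, eventually_atTop]
  exact ⟨n, hω⟩

lemma extinctionProb_fixed [Countable X] (μ : X → PMF (X →₀ ℕ)) (A : Set X) :
    extinctionProb μ A ∈ fixedPoints μ := by
  refine ⟨extinctionProb_mem μ A, ?_⟩
  ext x
  have h1 : Tendsto (fun n => (genFun μ)^[n + 1] (never μ A) x) atTop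
      (𝓝 (extinctionProb μ A x)) :=
    (tendsto_extinctionProb μ x A).comp (tendsto_add_atTop_nat 1)
  simp only [Function.iterate_succ_apply'] at h1
  exact tendsto_nhds_unique (genFun_tendsto μ
    (Eventually.of_forall fun n => iter_mem μ (never_mem μ A) n)
    (fun x => tendsto_extinctionProb μ x A) x) h1

/-- the expectation of the multiplicative functional -/
lemma iter_eq_integral [Countable X] (μ : X → PMF (X →₀ ℕ)) {s : X → ℝ} (hs : s ∈ Cube X)
    (n : ℕ) (x : X) :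
    (genFun μ)^[n] s x = ∫ ω, W s (pop x ω n) ∂(offspringLaw μ) := by
  have h := lintegral_nest μ x (fun _ _ => 1) n (fun y => ENNReal.ofReal (s y))
  rw [nest_one μ (fun _ _ => 1) n (fun _ _ => rfl), iter_ofReal μ hs] at h
  have h2 : ∀ ω : ℕ × X × ℕ → (X →₀ ℕ),
      (∏ m ∈ Finset.range n, W (fun _ => (1 : ℝ≥0∞)) (pop x ω m)) *
        W (fun y => ENNReal.ofReal (s y)) (pop x ω n) = ENNReal.ofReal (W s (pop x ω n)) := by
    intro ω
    rw [ofReal_W (fun x => (hs x).1), Finset.prod_eq_one (fun m _ => W_one _), one_mul]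
  simp only [h2] at h
  rw [integral_eq_lintegral_of_nonneg_ae
    (Eventually.of_forall fun ω => W_nonneg (fun x => (hs x).1) _), h,
    ENNReal.toReal_ofReal (iter_mem μ hs n x).1]
  exact ((Measurable.of_discrete (f := W s)).comp (measurable_pop' x n)).aestronglyMeasurable

lemma W_induction {P : (X →₀ ℕ) → Prop} (h0 : P 0) (h1 : ∀ x, P (Finsupp.single x 1))
    (hadd : ∀ z z', P z → P z' → P (z + z')) (z : X →₀ ℕ) : P z := by
  induction z using Finsupp.induction_linear with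
  | zero => exact h0
  | add f g hf hg => exact hadd f g hf hg
  | single a n =>
    induction n with
    | zero => simpa using h0
    | succ n ih =>
      rw [Finsupp.single_add]
      exact hadd _ _ ih (h1 a)

/-- the truncated function `max 0 (1 - (1 - s) / ε)` -/
noncomputable def trunc (ε : ℝ) (s : X → ℝ) (x : X) : ℝ := max 0 (1 - (1 - s x) / ε)

lemma trunc_mem {ε : ℝ} (hε : 0 < ε) {s : X → ℝ} (hs : s ∈ Cube X) : trunc ε s ∈ Cube X := by
  intro x
  refine ⟨le_max_left _ _, max_le zero_le_one ?_⟩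
  have : 0 ≤ (1 - s x) / ε := div_nonneg (by linarith [(hs x).2]) hε.le
  linarith

lemma W_trunc {ε : ℝ} (hε : 0 < ε) (hε1 : ε ≤ 1) {s : X → ℝ} (hs : s ∈ Cube X) (z : X →₀ ℕ) :
    1 - (1 - W s z) / ε ≤ W (trunc ε s) z := by
  induction z using W_induction with
  | h0 => simp [W_zero]
  | h1 x => rw [W_single, W_single]; exact le_max_right _ _
  | hadd z z' hz hz' =>
    rw [W_add, W_add]
    have hS := W_nonneg (fun x => (hs x).1) z
    have hS1 := W_le_one hs z
    have hS' := W_nonneg (fun x => (hs x).1) z'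
    have hS1' := W_le_one hs z'
    have hG := W_nonneg (fun x => (trunc_mem hε hs x).1) z
    have hG' := W_nonneg (fun x => (trunc_mem hε hs x).1) z'
    set S := W s z
    set S' := W s z'
    set G := W (trunc ε s) z
    set G' := W (trunc ε s) z'
    by_cases h : 1 - (1 - S) / ε ≤ 0
    · have h1 : ε ≤ 1 - S := by
        have : 1 ≤ (1 - S) / ε := by linarith
        rwa [le_div_iff₀ hε, one_mul] at this
      have h2 : ε ≤ 1 - S * S' := by nlinarith
      have h3 : 1 ≤ (1 - S * S') / ε := by rwa [le_div_iff₀ hε, one_mul]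
      have := mul_nonneg hG hG'
      linarith
    · by_cases h' : 1 - (1 - S') / ε ≤ 0
      · have h1 : ε ≤ 1 - S' := by
          have : 1 ≤ (1 - S') / ε := by linarith
          rwa [le_div_iff₀ hε, one_mul] at this
        have h2 : ε ≤ 1 - S * S' := by nlinarith
        have h3 : 1 ≤ (1 - S * S') / ε := by rwa [le_div_iff₀ hε, one_mul]
        have := mul_nonneg hG hG'
        linarith
      · push Not at h h'
        have h4 : (1 - (1 - S) / ε) * (1 - (1 - S') / ε) ≤ G * G' :=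
          mul_le_mul hz hz' h'.le hG
        refine le_trans ?_ h4
        have ha : 0 ≤ (1 - S) / ε := div_nonneg (by linarith) hε.le
        have hb : 0 ≤ (1 - S') / ε := div_nonneg (by linarith) hε.le
        have e1 : (1 - S * S') / ε = (1 - S) / ε + (1 - S') / ε - ε * ((1 - S) / ε * ((1 - S') / ε)) := by
          field_simp
          ring
        rw [e1]
        nlinarith [mul_nonneg ha hb]

lemma W_convex {l : ℝ} (hl : 0 ≤ l) (hl1 : l ≤ 1) {u : X → ℝ} (hu : u ∈ Cube X) (z : X →₀ ℕ) :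
    W (fun y => (1 - l) * u y + l) z ≤ (1 - l) * W u z + l := by
  induction z using W_induction with
  | h0 => simp [W_zero]
  | h1 x => rw [W_single, W_single]
  | hadd z z' hz hz' =>
    rw [W_add, W_add]
    have h0 : ∀ y, 0 ≤ (1 - l) * u y + l := fun y => by
      have := mul_nonneg (sub_nonneg.2 hl1) (hu y).1
      linarith
    have hG := W_nonneg h0 z
    have hG' := W_nonneg h0 z'
    have hS := W_nonneg (fun x => (hu x).1) z
    have hS1 := W_le_one hu z
    have hS' := W_nonneg (fun x => (hu x).1) z'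
    have hS1' := W_le_one hu z'
    refine (mul_le_mul hz hz' hG' (le_trans hG hz)).trans ?_
    nlinarith [mul_nonneg (mul_nonneg hl (sub_nonneg.2 hl1))
      (mul_nonneg (sub_nonneg.2 hS1) (sub_nonneg.2 hS1'))]

lemma integrable_W [Countable X] (μ : X → PMF (X →₀ ℕ)) {s : X → ℝ} (hs : s ∈ Cube X)
    (n : ℕ) (x : X) :
    Integrable (fun ω => W s (pop x ω n)) (offspringLaw μ) := by
  refine Integrable.mono' (integrable_const (1 : ℝ))
    ((Measurable.of_discrete (f := W s)).comp (measurable_pop' x n)).aestronglyMeasurable ?_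
  refine Eventually.of_forall fun ω => ?_
  rw [Real.norm_of_nonneg (W_nonneg (fun x => (hs x).1) _)]
  exact W_le_one hs _

lemma pow_mem {s : X → ℝ} (hs : s ∈ Cube X) (k : ℕ) : (fun y => s y ^ k) ∈ Cube X :=
  fun y => ⟨pow_nonneg (hs y).1 _, pow_le_one₀ (hs y).1 (hs y).2⟩

lemma jensen [Countable X] (μ : X → PMF (X →₀ ℕ)) {s : X → ℝ} (hs : s ∈ Cube X) (k : ℕ)
    (x : X) : genFun μ s x ^ k ≤ genFun μ (fun y => s y ^ k) x := by
  have h1 := iter_eq_integral μ hs 1 x
  have h2 := iter_eq_integral μ (pow_mem hs k) 1 x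
  simp only [Function.iterate_one, W_pow] at h1 h2
  rw [h1, h2]
  have hint := integrable_W μ (pow_mem hs k) 1 x
  simp only [W_pow] at hint
  exact ConvexOn.map_integral_le (convexOn_pow k) (continuous_pow k).continuousOn isClosed_Ici
    (Eventually.of_forall fun ω => W_nonneg (fun x => (hs x).1) _) (integrable_W μ hs 1 x) hint

lemma fixed_cube {μ : X → PMF (X →₀ ℕ)} {s : X → ℝ} (hs : s ∈ fixedPoints μ) : s ∈ Cube X := hs.1

lemma fixed_eq {μ : X → PMF (X →₀ ℕ)} {s : X → ℝ} (hs : s ∈ fixedPoints μ) (x : X) :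
    genFun μ s x = s x := congrFun hs.2 x

lemma fixed_iter {μ : X → PMF (X →₀ ℕ)} {s : X → ℝ} (hs : s ∈ fixedPoints μ) (n : ℕ) :
    (genFun μ)^[n] s = s := Function.iterate_fixed hs.2 n

lemma pow_iter_mono [Countable X] {μ : X → PMF (X →₀ ℕ)} {s : X → ℝ} (hs : s ∈ fixedPoints μ)
    (k : ℕ) (x : X) : Monotone (fun n => (genFun μ)^[n] (fun y => s y ^ k) x) := by
  refine monotone_nat_of_le_succ fun n => ?_
  rw [Function.iterate_succ_apply]
  refine iter_mono μ (pow_mem hs.1 k) (genFun_mem μ (pow_mem hs.1 k)) (fun y => ?_) n x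
  have := jensen μ hs.1 k y
  rwa [fixed_eq hs] at this

/-- limit of the iterates at the `k`-th power of a fixed point -/
noncomputable def powLim (μ : X → PMF (X →₀ ℕ)) (s : X → ℝ) (k : ℕ) (x : X) : ℝ :=
  ⨆ n, (genFun μ)^[n] (fun y => s y ^ k) x

lemma powLim_tendsto [Countable X] {μ : X → PMF (X →₀ ℕ)} {s : X → ℝ} (hs : s ∈ fixedPoints μ)
    (k : ℕ) (x : X) :
    Tendsto (fun n => (genFun μ)^[n] (fun y => s y ^ k) x) atTop (𝓝 (powLim μ s k x)) := by
  refine tendsto_atTop_ciSup (pow_iter_mono hs k x) ⟨1, ?_⟩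
  rintro _ ⟨n, rfl⟩
  exact (iter_mem μ (pow_mem hs.1 k) n x).2

lemma powLim_fixed [Countable X] {μ : X → PMF (X →₀ ℕ)} {s : X → ℝ} (hs : s ∈ fixedPoints μ)
    (k : ℕ) : powLim μ s k ∈ fixedPoints μ := by
  have hm : powLim μ s k ∈ Cube X := fun x =>
    ⟨ge_of_tendsto' (powLim_tendsto hs k x) fun n => (iter_mem μ (pow_mem hs.1 k) n x).1,
      le_of_tendsto' (powLim_tendsto hs k x) fun n => (iter_mem μ (pow_mem hs.1 k) n x).2⟩
  refine ⟨hm, ?_⟩
  ext x
  have h1 := (powLim_tendsto hs k x).comp (tendsto_add_atTop_nat 1)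
  simp only [Function.comp_def, Function.iterate_succ_apply'] at h1
  exact tendsto_nhds_unique (genFun_tendsto μ
    (Eventually.of_forall fun n => iter_mem μ (pow_mem hs.1 k) n)
    (fun x => powLim_tendsto hs k x) x) h1

lemma powLim_anti [Countable X] {μ : X → PMF (X →₀ ℕ)} {s : X → ℝ} (hs : s ∈ fixedPoints μ)
    {k l : ℕ} (h : k ≤ l) (x : X) : powLim μ s l x ≤ powLim μ s k x := by
  refine le_of_tendsto_of_tendsto' (powLim_tendsto hs l x) (powLim_tendsto hs k x) fun n => ?_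
  refine iter_mono μ (pow_mem hs.1 l) (pow_mem hs.1 k) (fun y => ?_) n x
  exact pow_le_pow_of_le_one (hs.1 y).1 (hs.1 y).2 h

lemma powLim_eq_succ [Countable X] {μ : X → PMF (X →₀ ℕ)} {s : X → ℝ} (hs : s ∈ fixedPoints μ)
    (hfin : (fixedPoints μ).Finite) :
    ∃ k : ℕ, powLim μ s (k + 1) = powLim μ s (k + 2) := by
  have : Finite (fixedPoints μ) := hfin
  obtain ⟨a, b, hab, h⟩ := Finite.exists_ne_map_eq_of_infinite
    (fun k : ℕ => (⟨powLim μ s (k + 1), powLim_fixed hs (k + 1)⟩ : fixedPoints μ))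
  simp only [Subtype.mk.injEq] at h
  rcases lt_or_gt_of_ne hab with hlt | hlt
  · refine ⟨a, ?_⟩
    ext x
    refine le_antisymm ?_ (powLim_anti hs (by omega) x)
    rw [h]
    exact powLim_anti hs (by omega) x
  · refine ⟨b, ?_⟩
    ext x
    refine le_antisymm ?_ (powLim_anti hs (by omega) x)
    rw [← h]
    exact powLim_anti hs (by omega) x

lemma scalar_ineq {w r : ℝ} (hw : 0 ≤ w) (hw1 : w ≤ 1) (hr : 0 < r) (k : ℕ) :
    w - w ^ 2 ≤ r + (1 / r) ^ k * (w ^ (k + 1) - w ^ (k + 2)) := by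
  have h1 : w ^ (k + 1) - w ^ (k + 2) = w ^ k * (w - w ^ 2) := by ring
  have h2 : 0 ≤ w - w ^ 2 := by nlinarith
  rw [h1]
  by_cases h : w ≤ r
  · have : 0 ≤ (1 / r) ^ k * (w ^ k * (w - w ^ 2)) := by positivity
    nlinarith [sq_nonneg w]
  · push Not at h
    have h3 : 1 ≤ (1 / r) ^ k * w ^ k := by
      rw [← mul_pow]
      refine one_le_pow₀ ?_
      rw [one_div, ← div_eq_inv_mul, le_div_iff₀ hr, one_mul]
      exact h.le
    have h4 : (w - w ^ 2) * 1 ≤ (w - w ^ 2) * ((1 / r) ^ k * w ^ k) :=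
      mul_le_mul_of_nonneg_left h3 h2
    nlinarith

lemma iter_sub_le [Countable X] (μ : X → PMF (X →₀ ℕ)) {s : X → ℝ} (hs : s ∈ Cube X)
    {r : ℝ} (hr : 0 < r) (k n : ℕ) (x : X) :
    (genFun μ)^[n] (fun y => s y ^ 1) x - (genFun μ)^[n] (fun y => s y ^ 2) x ≤
      r + (1 / r) ^ k * ((genFun μ)^[n] (fun y => s y ^ (k + 1)) x -
        (genFun μ)^[n] (fun y => s y ^ (k + 2)) x) := by
  rw [iter_eq_integral μ (pow_mem hs 1), iter_eq_integral μ (pow_mem hs 2),
    iter_eq_integral μ (pow_mem hs (k + 1)), iter_eq_integral μ (pow_mem hs (k + 2))]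
  have i1 := integrable_W μ (pow_mem hs 1) n x
  have i2 := integrable_W μ (pow_mem hs 2) n x
  have i3 := integrable_W μ (pow_mem hs (k + 1)) n x
  have i4 := integrable_W μ (pow_mem hs (k + 2)) n x
  have i34 : Integrable (fun ω => (1 / r) ^ k * (W (fun y => s y ^ (k + 1)) (pop x ω n) -
      W (fun y => s y ^ (k + 2)) (pop x ω n))) (offspringLaw μ) := (i3.sub i4).const_mul _
  have e : ∫ ω, (r + (1 / r) ^ k * (W (fun y => s y ^ (k + 1)) (pop x ω n) -
      W (fun y => s y ^ (k + 2)) (pop x ω n))) ∂(offspringLaw μ) =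
      r + (1 / r) ^ k * (∫ ω, W (fun y => s y ^ (k + 1)) (pop x ω n) ∂(offspringLaw μ) -
        ∫ ω, W (fun y => s y ^ (k + 2)) (pop x ω n) ∂(offspringLaw μ)) := by
    rw [integral_add (integrable_const r) i34, integral_const_mul, integral_sub i3 i4]
    simp
  rw [← e, ← integral_sub i1 i2]
  refine integral_mono (i1.sub i2) ((integrable_const r).add i34) fun ω => ?_
  simp only [W_pow]
  have := scalar_ineq (W_nonneg (fun x => (hs x).1) (pop x ω n)) (W_le_one hs (pop x ω n)) hr k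
  simpa using this

lemma powLim_two [Countable X] {μ : X → PMF (X →₀ ℕ)} {s : X → ℝ} (hs : s ∈ fixedPoints μ)
    (hfin : (fixedPoints μ).Finite) (x : X) : s x ≤ powLim μ s 2 x := by
  obtain ⟨k, hk⟩ := powLim_eq_succ hs hfin
  refine le_of_forall_pos_le_add fun r hr => ?_
  have h1 : (fun y => s y ^ 1) = s := by ext y; simp
  have h := fun n => iter_sub_le μ hs.1 hr k n x
  have h2 : Tendsto (fun n => (genFun μ)^[n] (fun y => s y ^ 1) x -
      (genFun μ)^[n] (fun y => s y ^ 2) x) atTop (𝓝 (s x - powLim μ s 2 x)) := by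
    refine Tendsto.sub ?_ (powLim_tendsto hs 2 x)
    rw [h1]
    simp only [fixed_iter hs]
    exact tendsto_const_nhds
  have h3 : Tendsto (fun n => r + (1 / r) ^ k * ((genFun μ)^[n] (fun y => s y ^ (k + 1)) x -
        (genFun μ)^[n] (fun y => s y ^ (k + 2)) x)) atTop
      (𝓝 (r + (1 / r) ^ k * (powLim μ s (k + 1) x - powLim μ s (k + 2) x))) :=
    (((powLim_tendsto hs (k + 1) x).sub (powLim_tendsto hs (k + 2) x)).const_mul _).const_add _
  have h4 := le_of_tendsto_of_tendsto' h2 h3 h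
  rw [hk] at h4
  simp only [sub_self, mul_zero, add_zero] at h4
  linarith

/-- one variable inequality behind the maximal inequality -/
lemma trunc_lower {ε : ℝ} (hε : 0 < ε) (hε1 : ε ≤ 1) {s : X → ℝ} (hs : s ∈ Cube X)
    (z : X →₀ ℕ) :
    W s z - (1 / ε) * (W s z - W s z ^ 2) ≤ W (trunc ε s) z := by
  have h1 := W_trunc hε hε1 hs z
  have hG := W_nonneg (fun x => (trunc_mem hε hs x).1) z
  have hS := W_nonneg (fun x => (hs x).1) z
  have hS1 := W_le_one hs z
  set S := W s z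
  by_cases h : 1 - S ≤ ε
  · refine le_trans ?_ h1
    have e : 1 - (1 - S) / ε - (S - 1 / ε * (S - S ^ 2)) = (1 - S) * (ε - (1 - S)) / ε := by
      field_simp
      try ring
    have : 0 ≤ (1 - S) * (ε - (1 - S)) / ε := by
      refine div_nonneg (mul_nonneg ?_ ?_) hε.le <;> linarith
    linarith
  · push Not at h
    refine le_trans ?_ hG
    have e : S - 1 / ε * (S - S ^ 2) = - (S * ((1 - S) - ε) / ε) := by
      field_simp
      try ring
    rw [e]
    have : 0 ≤ S * ((1 - S) - ε) / ε := by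
      refine div_nonneg (mul_nonneg hS ?_) hε.le
      linarith
    linarith

lemma iter_trunc_lower [Countable X] (μ : X → PMF (X →₀ ℕ)) {s : X → ℝ} (hs : s ∈ Cube X)
    {ε : ℝ} (hε : 0 < ε) (hε1 : ε ≤ 1) (n : ℕ) (x : X) :
    (genFun μ)^[n] s x - (1 / ε) * ((genFun μ)^[n] s x - (genFun μ)^[n] (fun y => s y ^ 2) x) ≤
      (genFun μ)^[n] (trunc ε s) x := by
  rw [iter_eq_integral μ hs, iter_eq_integral μ (pow_mem hs 2),
    iter_eq_integral μ (trunc_mem hε hs)]
  have i1 := integrable_W μ hs n x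
  have i2 := integrable_W μ (pow_mem hs 2) n x
  have i3 := integrable_W μ (trunc_mem hε hs) n x
  have i12 : Integrable (fun ω => (1 / ε) * (W s (pop x ω n) -
      W (fun y => s y ^ 2) (pop x ω n))) (offspringLaw μ) := (i1.sub i2).const_mul _
  rw [← integral_sub i1 i2, ← integral_const_mul, ← integral_sub i1 i12]
  refine integral_mono (i1.sub i12) i3 fun ω => ?_
  have := trunc_lower hε hε1 hs (pop x ω n)
  simpa [W_pow] using this

lemma genFun_trunc [Countable X] {μ : X → PMF (X →₀ ℕ)} {s : X → ℝ} (hs : s ∈ fixedPoints μ)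
    {ε : ℝ} (hε : 0 < ε) (hε1 : ε ≤ 1) (x : X) :
    trunc ε s x ≤ genFun μ (trunc ε s) x := by
  refine max_le (genFun_mem μ (trunc_mem hε hs.1) x).1 ?_
  have h1 := iter_eq_integral μ hs.1 1 x
  have h2 := iter_eq_integral μ (trunc_mem hε hs.1) 1 x
  simp only [Function.iterate_one] at h1 h2
  rw [fixed_eq hs] at h1
  rw [h2, h1]
  have i1 := integrable_W μ hs.1 1 x
  have i3 := integrable_W μ (trunc_mem hε hs.1) 1 x
  have i4 : Integrable (fun ω => (1 - W s (pop x ω 1)) / ε) (offspringLaw μ) :=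
    ((integrable_const _).sub i1).div_const _
  have e : (1 : ℝ) - (1 - ∫ ω, W s (pop x ω 1) ∂(offspringLaw μ)) / ε =
      ∫ ω, (1 - (1 - W s (pop x ω 1)) / ε) ∂(offspringLaw μ) := by
    rw [integral_sub (integrable_const _) i4,
      integral_div, integral_sub (integrable_const _) i1]
    simp
  rw [e]
  exact integral_mono ((integrable_const _).sub i4) i3
    fun ω => W_trunc hε hε1 hs.1 _

lemma trunc_le_avoid [Countable X] {μ : X → PMF (X →₀ ℕ)} {s : X → ℝ} (hs : s ∈ fixedPoints μ)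
    {ε : ℝ} (hε : 0 < ε) (hε1 : ε ≤ 1) (K : ℕ) (x : X) :
    trunc ε s x ≤ avoid μ {y | s y ≤ 1 - ε} K x := by
  have hA : ∀ x, s x ≤ 1 - ε → trunc ε s x = 0 := by
    intro x hx
    unfold trunc
    refine max_eq_left ?_
    have : 1 ≤ (1 - s x) / ε := by
      rw [le_div_iff₀ hε, one_mul]; linarith
    linarith
  induction K generalizing x with
  | zero =>
    by_cases hx : s x ≤ 1 - ε
    · rw [hA x hx]; exact (avoid_mem μ _ 0 x).1
    · have : avoid μ {y | s y ≤ 1 - ε} 0 x = 1 := by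
        simp only [avoid, Function.iterate_zero, id]
        exact Set.indicator_of_mem (show x ∈ {y | s y ≤ 1 - ε}ᶜ from hx) _
      rw [this]
      exact (trunc_mem hε hs.1 x).2
  | succ K ih =>
    by_cases hx : s x ≤ 1 - ε
    · rw [hA x hx]; exact (avoid_mem μ _ _ x).1
    · have : avoid μ {y | s y ≤ 1 - ε} (K + 1) x = genFun μ (avoid μ {y | s y ≤ 1 - ε} K) x := by
        unfold avoid
        rw [Function.iterate_succ_apply']
        have h1 : ({y | s y ≤ 1 - ε}ᶜ : Set X).indicator (fun _ => (1 : ℝ)) x = 1 :=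
          Set.indicator_of_mem (show x ∈ {y | s y ≤ 1 - ε}ᶜ from hx) _
        simp only [killed, h1, one_mul]
      rw [this]
      exact (genFun_trunc hs hε hε1 x).trans
        (genFun_mono μ (trunc_mem hε hs.1) (avoid_mem μ _ K) ih x)

lemma le_extinctionProb [Countable X] {μ : X → PMF (X →₀ ℕ)} {s : X → ℝ}
    (hs : s ∈ fixedPoints μ) (hfin : (fixedPoints μ).Finite)
    {ε : ℝ} (hε : 0 < ε) (hε1 : ε ≤ 1) (x : X) :
    s x ≤ extinctionProb μ {y | s y ≤ 1 - ε} x := by
  have h1 : ∀ x, trunc ε s x ≤ never μ {y | s y ≤ 1 - ε} x := fun x =>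
    ge_of_tendsto' (tendsto_avoid μ x _) fun K => trunc_le_avoid hs hε hε1 K x
  have h2 : ∀ n, s x - (1 / ε) * (s x - (genFun μ)^[n] (fun y => s y ^ 2) x) ≤
      extinctionProb μ {y | s y ≤ 1 - ε} x := by
    intro n
    have h3 := iter_trunc_lower μ hs.1 hε hε1 n x
    rw [fixed_iter hs] at h3
    exact h3.trans ((iter_mono μ (trunc_mem hε hs.1) (never_mem μ _) h1 n x).trans
      (iter_never_le μ x _ n))
  have h4 : Tendsto (fun n => s x - (1 / ε) * (s x - (genFun μ)^[n] (fun y => s y ^ 2) x)) atTop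
      (𝓝 (s x - (1 / ε) * (s x - powLim μ s 2 x))) :=
    (((powLim_tendsto hs 2 x).const_sub _).const_mul _).const_sub _
  have h5 := le_of_tendsto' h4 h2
  have h6 := powLim_two hs hfin x
  have h7 : (1 / ε) * (s x - powLim μ s 2 x) ≤ 0 :=
    mul_nonpos_of_nonneg_of_nonpos (by positivity) (by linarith)
  linarith

section Freeze

/-- generating function frozen outside `{s ≤ 1 - ε}`, with boundary value `s + φ (1 - s)` -/
noncomputable def fz (μ : X → PMF (X →₀ ℕ)) (s : X → ℝ) (ε φ : ℝ) (u : X → ℝ) (y : X) : ℝ :=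
  if s y ≤ 1 - ε then genFun μ u y else s y + φ * (1 - s y)

/-- iterates from `0` -/
noncomputable def fzIter (μ : X → PMF (X →₀ ℕ)) (s : X → ℝ) (ε φ : ℝ) (n : ℕ) : X → ℝ :=
  (fz μ s ε φ)^[n] (fun _ => 0)

lemma zero_mem : (fun _ => (0 : ℝ)) ∈ Cube X := fun _ => ⟨le_rfl, zero_le_one⟩

lemma fz_mem {μ : X → PMF (X →₀ ℕ)} {s : X → ℝ} (hs : s ∈ Cube X) {ε φ : ℝ} (h0 : 0 ≤ φ)
    (h1 : φ ≤ 1) {u : X → ℝ} (hu : u ∈ Cube X) : fz μ s ε φ u ∈ Cube X := by
  intro y
  unfold fz
  split_ifs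
  · exact genFun_mem μ hu y
  · have := hs y
    constructor
    · have := mul_nonneg h0 (sub_nonneg.2 this.2)
      linarith [(hs y).1]
    · nlinarith [mul_nonneg (sub_nonneg.2 h1) (sub_nonneg.2 this.2)]

lemma fz_mono {μ : X → PMF (X →₀ ℕ)} {s : X → ℝ} (hs : s ∈ Cube X) {ε φ φ' : ℝ}
    (h : φ ≤ φ') {u v : X → ℝ} (hu : u ∈ Cube X) (hv : v ∈ Cube X)
    (huv : ∀ y, u y ≤ v y) (y : X) : fz μ s ε φ u y ≤ fz μ s ε φ' v y := by
  unfold fz
  split_ifs
  · exact genFun_mono μ hu hv huv y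
  · have := mul_le_mul_of_nonneg_right h (sub_nonneg.2 (hs y).2)
    linarith

lemma fzIter_succ (μ : X → PMF (X →₀ ℕ)) (s : X → ℝ) (ε φ : ℝ) (n : ℕ) :
    fzIter μ s ε φ (n + 1) = fz μ s ε φ (fzIter μ s ε φ n) := by
  unfold fzIter
  rw [Function.iterate_succ_apply']

lemma fzIter_mem {μ : X → PMF (X →₀ ℕ)} {s : X → ℝ} (hs : s ∈ Cube X) {ε φ : ℝ} (h0 : 0 ≤ φ)
    (h1 : φ ≤ 1) (n : ℕ) : fzIter μ s ε φ n ∈ Cube X := by
  induction n with
  | zero => exact zero_mem
  | succ n ih => rw [fzIter_succ]; exact fz_mem hs h0 h1 ih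

lemma fzIter_le_succ {μ : X → PMF (X →₀ ℕ)} {s : X → ℝ} (hs : s ∈ Cube X) {ε φ : ℝ}
    (h0 : 0 ≤ φ) (h1 : φ ≤ 1) (n : ℕ) (y : X) :
    fzIter μ s ε φ n y ≤ fzIter μ s ε φ (n + 1) y := by
  induction n generalizing y with
  | zero => exact (fzIter_mem hs h0 h1 1 y).1
  | succ n ih =>
    rw [fzIter_succ, fzIter_succ μ s ε φ (n + 1)]
    exact fz_mono hs le_rfl (fzIter_mem hs h0 h1 n) (fzIter_mem hs h0 h1 (n + 1)) ih y

lemma fzIter_mono {μ : X → PMF (X →₀ ℕ)} {s : X → ℝ} (hs : s ∈ Cube X) {ε φ : ℝ}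
    (h0 : 0 ≤ φ) (h1 : φ ≤ 1) (y : X) : Monotone (fun n => fzIter μ s ε φ n y) :=
  monotone_nat_of_le_succ fun n => fzIter_le_succ hs h0 h1 n y

/-- the minimal solution of the frozen equation -/
noncomputable def fzLim (μ : X → PMF (X →₀ ℕ)) (s : X → ℝ) (ε φ : ℝ) (y : X) : ℝ :=
  ⨆ n, fzIter μ s ε φ n y

lemma fzLim_tendsto {μ : X → PMF (X →₀ ℕ)} {s : X → ℝ} (hs : s ∈ Cube X) {ε φ : ℝ}
    (h0 : 0 ≤ φ) (h1 : φ ≤ 1) (y : X) :
    Tendsto (fun n => fzIter μ s ε φ n y) atTop (𝓝 (fzLim μ s ε φ y)) := by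
  refine tendsto_atTop_ciSup (fzIter_mono hs h0 h1 y) ⟨1, ?_⟩
  rintro _ ⟨n, rfl⟩
  exact (fzIter_mem hs h0 h1 n y).2

lemma fzLim_mem {μ : X → PMF (X →₀ ℕ)} {s : X → ℝ} (hs : s ∈ Cube X) {ε φ : ℝ}
    (h0 : 0 ≤ φ) (h1 : φ ≤ 1) : fzLim μ s ε φ ∈ Cube X := fun y =>
  ⟨ge_of_tendsto' (fzLim_tendsto hs h0 h1 y) fun n => (fzIter_mem hs h0 h1 n y).1,
    le_of_tendsto' (fzLim_tendsto hs h0 h1 y) fun n => (fzIter_mem hs h0 h1 n y).2⟩

lemma fzIter_le_fzLim {μ : X → PMF (X →₀ ℕ)} {s : X → ℝ} (hs : s ∈ Cube X) {ε φ : ℝ}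
    (h0 : 0 ≤ φ) (h1 : φ ≤ 1) (n : ℕ) (y : X) : fzIter μ s ε φ n y ≤ fzLim μ s ε φ y :=
  (fzIter_mono hs h0 h1 y).ge_of_tendsto (fzLim_tendsto hs h0 h1 y) n

lemma fzLim_fixed {μ : X → PMF (X →₀ ℕ)} {s : X → ℝ} (hs : s ∈ Cube X) {ε φ : ℝ}
    (h0 : 0 ≤ φ) (h1 : φ ≤ 1) : fz μ s ε φ (fzLim μ s ε φ) = fzLim μ s ε φ := by
  ext y
  have ht := (fzLim_tendsto (μ := μ) (ε := ε) hs h0 h1 y).comp (tendsto_add_atTop_nat 1)
  simp only [Function.comp_def, fzIter_succ] at ht
  refine tendsto_nhds_unique ?_ ht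
  unfold fz
  split_ifs with hy
  · exact genFun_tendsto μ (Eventually.of_forall fun n => fzIter_mem hs h0 h1 n)
      (fun y => fzLim_tendsto hs h0 h1 y) y
  · exact tendsto_const_nhds

lemma fzLim_zero_le {μ : X → PMF (X →₀ ℕ)} {s : X → ℝ} (hs : s ∈ fixedPoints μ) {ε : ℝ}
    (y : X) : fzLim μ s ε 0 y ≤ s y := by
  refine le_of_tendsto' (fzLim_tendsto hs.1 le_rfl zero_le_one y) fun n => ?_
  induction n generalizing y with
  | zero => exact (hs.1 y).1
  | succ n ih =>
    rw [fzIter_succ]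
    unfold fz
    split_ifs
    · rw [← fixed_eq hs y]
      exact genFun_mono μ (fzIter_mem hs.1 le_rfl zero_le_one n) hs.1 ih y
    · linarith

lemma never_le_one (μ : X → PMF (X →₀ ℕ)) (A : Set X) (x : X) : never μ A x ≤ 1 :=
  (never_mem μ A x).2

lemma never_eq_zero [Countable X] (μ : X → PMF (X →₀ ℕ)) (A : Set X) {x : X} (hx : x ∈ A) :
    never μ A x = 0 := by
  have h : ∀ K, avoid μ A K x = 0 := by
    intro K
    have hi : Aᶜ.indicator (fun _ => (1 : ℝ)) x = 0 :=
      Set.indicator_of_notMem (by simpa using hx) _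
    cases K with
    | zero => simpa [avoid] using hi
    | succ K =>
      unfold avoid
      rw [Function.iterate_succ_apply']
      simp only [killed, hi, zero_mul]
  have := tendsto_avoid μ x A
  simp only [h] at this
  exact tendsto_nhds_unique this tendsto_const_nhds

lemma extinctionProb_le_fzLim [Countable X] {μ : X → PMF (X →₀ ℕ)} {s : X → ℝ}
    (hs : s ∈ Cube X) {ε : ℝ} (x : X) :
    extinctionProb μ {y | s y ≤ 1 - ε} x ≤ fzLim μ s ε 1 x := by
  refine le_of_tendsto' (tendsto_extinctionProb μ x _) fun n => ?_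
  refine le_trans ?_ (fzIter_le_fzLim hs zero_le_one le_rfl (n + 1) x)
  induction n generalizing x with
  | zero =>
    rw [fzIter_succ]
    unfold fz
    simp only [Function.iterate_zero, id]
    split_ifs with hx
    · rw [never_eq_zero μ _ (show x ∈ {y | s y ≤ 1 - ε} from hx)]
      exact (genFun_mem μ (fzIter_mem hs zero_le_one le_rfl 0) x).1
    · have := never_le_one μ {y | s y ≤ 1 - ε} x
      linarith
  | succ n ih =>
    rw [fzIter_succ, Function.iterate_succ_apply']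
    unfold fz
    split_ifs with hx
    · exact genFun_mono μ (iter_mem μ (never_mem μ _) n) (fzIter_mem hs zero_le_one le_rfl _) ih x
    · have := (genFun_mem μ (iter_mem μ (never_mem μ {y | s y ≤ 1 - ε}) n) x).2
      linarith

lemma genFun_convex {μ : X → PMF (X →₀ ℕ)} {l : ℝ} (hl : 0 ≤ l) (hl1 : l ≤ 1) {u : X → ℝ}
    (hu : u ∈ Cube X) (x : X) :
    genFun μ (fun y => (1 - l) * u y + l) x ≤ (1 - l) * genFun μ u x + l := by
  have hm : (fun y => (1 - l) * u y + l) ∈ Cube X := by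
    intro y
    have h1 := mul_nonneg (sub_nonneg.2 hl1) (hu y).1
    have h2 := mul_nonneg (sub_nonneg.2 hl1) (sub_nonneg.2 (hu y).2)
    constructor <;> nlinarith
  rw [genFun_eq, genFun_eq]
  have e : (1 - l) * (∑' j, (μ x j).toReal * W u j) + l =
      ∑' j, ((1 - l) * ((μ x j).toReal * W u j) + l * (μ x j).toReal) := by
    rw [Summable.tsum_add ((summable_W _ hu).mul_left _) ((summable_pmf _).mul_left _),
      tsum_mul_left, tsum_mul_left, tsum_pmf, mul_one]
  rw [e]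
  refine (summable_W _ hm).tsum_le_tsum (fun j => ?_)
    (((summable_W _ hu).mul_left _).add ((summable_pmf _).mul_left _))
  have := mul_le_mul_of_nonneg_left (W_convex hl hl1 hu j)
    (ENNReal.toReal_nonneg (a := μ x j))
  nlinarith

lemma fzIter_mono_param {μ : X → PMF (X →₀ ℕ)} {s : X → ℝ} (hs : s ∈ Cube X) {ε φ φ' : ℝ}
    (h0 : 0 ≤ φ) (h : φ ≤ φ') (h1 : φ' ≤ 1) (n : ℕ) (y : X) :
    fzIter μ s ε φ n y ≤ fzIter μ s ε φ' n y := by
  induction n generalizing y with
  | zero => exact le_rfl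
  | succ n ih =>
    rw [fzIter_succ, fzIter_succ]
    exact fz_mono hs h (fzIter_mem hs h0 (h.trans h1) n) (fzIter_mem hs (h0.trans h) h1 n) ih y

lemma fzLim_mono_param {μ : X → PMF (X →₀ ℕ)} {s : X → ℝ} (hs : s ∈ Cube X) {ε φ φ' : ℝ}
    (h0 : 0 ≤ φ) (h : φ ≤ φ') (h1 : φ' ≤ 1) (y : X) :
    fzLim μ s ε φ y ≤ fzLim μ s ε φ' y :=
  le_of_tendsto_of_tendsto' (fzLim_tendsto hs h0 (h.trans h1) y)
    (fzLim_tendsto hs (h0.trans h) h1 y) fun n => fzIter_mono_param hs h0 h h1 n y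

lemma fzLim_lip {μ : X → PMF (X →₀ ℕ)} {s : X → ℝ} (hs : s ∈ Cube X) {ε φ φ' : ℝ}
    (h0 : 0 ≤ φ) (h : φ ≤ φ') (h1 : φ' ≤ 1) (hlt : φ < 1) (y : X) :
    fzLim μ s ε φ' y ≤ fzLim μ s ε φ y + (φ' - φ) / (1 - φ) := by
  set l := (φ' - φ) / (1 - φ) with hl
  have hpos : 0 < 1 - φ := by linarith
  have hl0 : 0 ≤ l := div_nonneg (by linarith) hpos.le
  have hl1 : l ≤ 1 := by
    rw [hl, div_le_one hpos]; linarith
  have hφ' : φ' = (1 - l) * φ + l := by
    have : l * (1 - φ) = φ' - φ := by rw [hl]; field_simp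
    linarith
  have hn : ∀ n y, fzIter μ s ε φ' n y ≤ (1 - l) * fzIter μ s ε φ n y + l := by
    intro n
    induction n with
    | zero =>
      intro y
      have : fzIter μ s ε φ' 0 y = 0 := rfl
      have h2 : fzIter μ s ε φ 0 y = 0 := rfl
      rw [this, h2]; linarith
    | succ n ih =>
      intro y
      rw [fzIter_succ, fzIter_succ]
      unfold fz
      split_ifs
      · refine le_trans ?_ (genFun_convex hl0 hl1 (fzIter_mem hs h0 hlt.le n) y)
        refine genFun_mono μ (fzIter_mem hs (h0.trans h) h1 n) ?_ ih y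
        intro y
        have hu := fzIter_mem (μ := μ) (ε := ε) hs h0 hlt.le n y
        have h1 := mul_nonneg (sub_nonneg.2 hl1) hu.1
        have h2 := mul_nonneg (sub_nonneg.2 hl1) (sub_nonneg.2 hu.2)
        constructor <;> nlinarith
      · rw [hφ']
        apply le_of_eq
        ring
  have h2 : Tendsto (fun n => (1 - l) * fzIter μ s ε φ n y + l) atTop
      (𝓝 ((1 - l) * fzLim μ s ε φ y + l)) :=
    ((fzLim_tendsto hs h0 hlt.le y).const_mul _).add_const _
  have h3 := le_of_tendsto_of_tendsto' (fzLim_tendsto hs (h0.trans h) h1 y) h2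
    fun n => hn n y
  have h4 := (fzLim_mem (μ := μ) (ε := ε) hs h0 hlt.le y).1
  nlinarith [mul_nonneg hl0 h4]

lemma fzIter_tendsto_param {μ : X → PMF (X →₀ ℕ)} {s : X → ℝ} (hs : s ∈ Cube X) {ε : ℝ}
    {ι : Type*} {l : Filter ι} {p : ι → ℝ} {φ : ℝ} (hp : ∀ i, 0 ≤ p i ∧ p i ≤ 1)
    (h : Tendsto p l (𝓝 φ)) (n : ℕ) (y : X) :
    Tendsto (fun i => fzIter μ s ε (p i) n y) l (𝓝 (fzIter μ s ε φ n y)) := by
  induction n generalizing y with
  | zero => exact tendsto_const_nhds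
  | succ n ih =>
    simp only [fzIter_succ]
    unfold fz
    split_ifs
    · exact genFun_tendsto μ (Eventually.of_forall fun i => fzIter_mem hs (hp i).1 (hp i).2 n) ih y
    · exact (h.mul_const _).const_add _

lemma exists_fz_value [Countable X] {μ : X → PMF (X →₀ ℕ)} {s : X → ℝ}
    (hs : s ∈ fixedPoints μ) {ε : ℝ} {x : X} {c : ℝ} (hc : s x < c)
    (hc' : c < extinctionProb μ {y | s y ≤ 1 - ε} x) :
    ∃ φ, 0 ≤ φ ∧ φ ≤ 1 ∧ fzLim μ s ε φ x = c := by
  have h1 : c < fzLim μ s ε 1 x := lt_of_lt_of_le hc' (extinctionProb_le_fzLim hs.1 x)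
  obtain ⟨n, hn⟩ := ((fzLim_tendsto hs.1 zero_le_one le_rfl x).eventually (lt_mem_nhds h1)).exists
  have hp : ∀ i : ℕ, 0 ≤ 1 - 1 / ((i : ℝ) + 1) ∧ 1 - 1 / ((i : ℝ) + 1) ≤ 1 := by
    intro i
    have h2 : 0 < 1 / ((i : ℝ) + 1) := Nat.one_div_pos_of_nat
    have h3 : 1 / ((i : ℝ) + 1) ≤ 1 := by
      rw [div_le_one (by positivity)]
      linarith [(Nat.cast_nonneg i : (0 : ℝ) ≤ i)]
    constructor <;> linarith
  have hlim : Tendsto (fun i : ℕ => 1 - 1 / ((i : ℝ) + 1)) atTop (𝓝 1) := by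
    have := (tendsto_one_div_add_atTop_nhds_zero_nat (𝕜 := ℝ)).const_sub 1
    simpa using this
  obtain ⟨i, hi⟩ := ((fzIter_tendsto_param (μ := μ) (ε := ε) hs.1 hp hlim n x).eventually
    (lt_mem_nhds hn)).exists
  set b := 1 - 1 / ((i : ℝ) + 1) with hb
  have hb0 : 0 ≤ b := (hp i).1
  have hb1 : b < 1 := by
    have : 0 < 1 / ((i : ℝ) + 1) := Nat.one_div_pos_of_nat
    linarith
  have hbc : c < fzLim μ s ε b x :=
    lt_of_lt_of_le hi (fzIter_le_fzLim hs.1 hb0 hb1.le n x)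
  have hcont : ContinuousOn (fun φ => fzLim μ s ε φ x) (Set.Icc 0 b) := by
    have hlip : ∀ φ ∈ Set.Icc 0 b, ∀ φ' ∈ Set.Icc 0 b,
        |fzLim μ s ε φ x - fzLim μ s ε φ' x| ≤ (1 / (1 - b)) * |φ - φ'| := by
      have key : ∀ φ ∈ Set.Icc 0 b, ∀ φ' ∈ Set.Icc 0 b, φ ≤ φ' →
        |fzLim μ s ε φ x - fzLim μ s ε φ' x| ≤ (1 / (1 - b)) * |φ - φ'| := by
        intro φ hφ φ' hφ' hle
        have h2 := fzLim_lip (μ := μ) (ε := ε) hs.1 hφ.1 hle (hφ'.2.trans hb1.le)
          (lt_of_le_of_lt hφ.2 hb1) x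
        have h3 := fzLim_mono_param (μ := μ) (ε := ε) hs.1 hφ.1 hle (hφ'.2.trans hb1.le) x
        rw [abs_of_nonpos (by linarith), abs_of_nonpos (by linarith)]
        have h4 : (φ' - φ) / (1 - φ) ≤ (1 / (1 - b)) * (φ' - φ) := by
          rw [div_eq_mul_one_div, mul_comm]
          refine mul_le_mul_of_nonneg_right ?_ (by linarith)
          exact one_div_le_one_div_of_le (by linarith) (by linarith [hφ.2])
        linarith
      intro φ hφ φ' hφ'
      rcases le_total φ φ' with h | h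
      · exact key φ hφ φ' hφ' h
      · rw [abs_sub_comm, abs_sub_comm φ]
        exact key φ' hφ' φ hφ h
    have hK : 0 < 1 / (1 - b) := by
      have : 0 < 1 - b := by linarith
      positivity
    refine Metric.continuousOn_iff.2 fun φ hφ δ hδ => ⟨δ / (1 / (1 - b)), by positivity, ?_⟩
    intro φ' hφ' hd
    rw [Real.dist_eq] at hd ⊢
    refine lt_of_le_of_lt (hlip φ' hφ' φ hφ) ?_
    rwa [lt_div_iff₀ hK, mul_comm] at hd
  have hmem : c ∈ Set.Icc (fzLim μ s ε 0 x) (fzLim μ s ε b x) :=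
    ⟨(fzLim_zero_le hs x).trans hc.le, hbc.le⟩
  obtain ⟨φ, hφ, hφc⟩ := intermediate_value_Icc hb0 hcont hmem
  exact ⟨φ, hφ.1, hφ.2.trans hb1.le, hφc⟩

end Freeze

lemma genFun_one_of_one [Countable X] {μ : X → PMF (X →₀ ℕ)} {s : X → ℝ}
    (hs : s ∈ fixedPoints μ) {u : X → ℝ} (hu : u ∈ Cube X) (h : ∀ y, s y = 1 → u y = 1)
    {y : X} (hy : s y = 1) : genFun μ u y = 1 := by
  classical
  let v : X → ℝ := fun z => if s z = 1 then 1 else 0
  have hv : v ∈ Cube X := by
    intro z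
    simp only [v]
    split_ifs <;> constructor <;> norm_num
  have hlim : ∀ z, Tendsto (fun k : ℕ => s z ^ k) atTop (𝓝 (v z)) := by
    intro z
    simp only [v]
    split_ifs with hz
    · simp [hz]
    · exact tendsto_pow_atTop_nhds_zero_of_lt_one (hs.1 z).1 (lt_of_le_of_ne (hs.1 z).2 hz)
  have h1 : Tendsto (fun k : ℕ => genFun μ (fun z => s z ^ k) y) atTop (𝓝 (genFun μ v y)) :=
    genFun_tendsto μ (Eventually.of_forall fun k => pow_mem hs.1 k) hlim y
  have h2 : 1 ≤ genFun μ v y := by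
    refine ge_of_tendsto' h1 fun k => ?_
    have := jensen μ hs.1 k y
    rwa [fixed_eq hs, hy, one_pow] at this
  have h3 : genFun μ v y ≤ genFun μ u y := by
    refine genFun_mono μ hv hu (fun z => ?_) y
    simp only [v]
    split_ifs with hz
    · rw [h z hz]
    · exact (hu z).1
  exact le_antisymm (genFun_mem μ hu y).2 (h2.trans h3)

lemma exists_fixed_value [Countable X] {μ : X → PMF (X →₀ ℕ)} {s : X → ℝ}
    (hs : s ∈ fixedPoints μ) {x : X} {c : ℝ} (hc : s x < c)
    (hc' : ∀ k : ℕ, c < extinctionProb μ {y | s y ≤ 1 - 1 / ((k : ℝ) + 1)} x) :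
    ∃ u ∈ fixedPoints μ, u x = c := by
  choose φ h0 h1 hφ using fun k => exists_fz_value hs hc (hc' k)
  let U : ℕ → X → ℝ := fun k => fzLim μ s (1 / ((k : ℝ) + 1)) (φ k)
  have hU : ∀ k, U k ∈ Cube X := fun k => fzLim_mem hs.1 (h0 k) (h1 k)
  let 𝒰 : Ultrafilter ℕ := Filter.hyperfilter ℕ
  have hcl : ∀ y, ∃ a ∈ Set.Icc (0 : ℝ) 1, Tendsto (fun k => U k y) 𝒰 (𝓝 a) := by
    intro y
    have hcomp : IsCompact (Set.Icc (0 : ℝ) 1) := isCompact_Icc
    obtain ⟨a, ha, hle⟩ := hcomp.ultrafilter_le_nhds (𝒰.map (fun k => U k y)) (by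
      rw [le_principal_iff, Ultrafilter.mem_coe, Ultrafilter.mem_map]
      exact Filter.mem_of_superset Filter.univ_mem fun k _ => hU k y)
    exact ⟨a, ha, hle⟩
  choose u hu hlim using hcl
  have huC : u ∈ Cube X := fun y => ⟨(hu y).1, (hu y).2⟩
  have hone : ∀ y, s y = 1 → u y = 1 := by
    intro y hy
    refine tendsto_nhds_unique (hlim y) ?_
    have : ∀ k, U k y = 1 := by
      intro k
      have hfix := congrFun (fzLim_fixed (μ := μ) (ε := 1 / ((k : ℝ) + 1)) hs.1 (h0 k) (h1 k)) y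
      have hpos : 0 < 1 / ((k : ℝ) + 1) := Nat.one_div_pos_of_nat
      unfold fz at hfix
      rw [if_neg (by rw [hy]; linarith), hy] at hfix
      simp only [U]
      linarith
    simp only [this]
    exact tendsto_const_nhds
  refine ⟨u, ⟨huC, ?_⟩, ?_⟩
  · ext y
    by_cases hy : s y = 1
    · rw [genFun_one_of_one hs huC hone hy, hone y hy]
    · have hlt : s y < 1 := lt_of_le_of_ne (hs.1 y).2 hy
      have hG : Tendsto (fun k => genFun μ (U k) y) 𝒰 (𝓝 (genFun μ u y)) :=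
        genFun_tendsto μ (Eventually.of_forall hU) hlim y
      refine tendsto_nhds_unique hG ((hlim y).congr' ?_)
      have hev : ∀ᶠ k : ℕ in (𝒰 : Filter ℕ), s y ≤ 1 - 1 / ((k : ℝ) + 1) := by
        have h2 : ∀ᶠ k : ℕ in atTop, s y ≤ 1 - 1 / ((k : ℝ) + 1) := by
          have := (tendsto_one_div_add_atTop_nhds_zero_nat (𝕜 := ℝ)).const_sub 1
          simp only [sub_zero] at this
          exact (this.eventually (lt_mem_nhds hlt)).mono fun k hk => hk.le
        exact (Nat.hyperfilter_le_atTop) h2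
      filter_upwards [hev] with k hk
      have hfix := congrFun (fzLim_fixed (μ := μ) (ε := 1 / ((k : ℝ) + 1)) hs.1 (h0 k) (h1 k)) y
      unfold fz at hfix
      rw [if_pos hk] at hfix
      exact hfix.symm
  · refine tendsto_nhds_unique (hlim x) ?_
    simp only [U, hφ]
    exact tendsto_const_nhds

lemma exists_extinctionProb_lt [Countable X] {μ : X → PMF (X →₀ ℕ)} {s : X → ℝ}
    (hs : s ∈ fixedPoints μ) (hfin : (fixedPoints μ).Finite) (x : X) {δ : ℝ} (hδ : 0 < δ) :
    ∃ k : ℕ, extinctionProb μ {y | s y ≤ 1 - 1 / ((k : ℝ) + 1)} x < s x + δ := by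
  by_contra hcon
  push Not at hcon
  have hsub : Set.Ioo (s x) (s x + δ) ⊆ (fun u : X → ℝ => u x) '' fixedPoints μ := by
    intro c hc
    obtain ⟨u, hu, huc⟩ := exists_fixed_value hs hc.1 (fun k => lt_of_lt_of_le hc.2 (hcon k))
    exact ⟨u, hu, huc⟩
  exact (Set.Ioo_infinite (by linarith : s x < s x + δ)) ((hfin.image _).subset hsub)

lemma extinctionProb_anti (μ : X → PMF (X →₀ ℕ)) {A B : Set X} (h : A ⊆ B) (x : X) :
    extinctionProb μ B x ≤ extinctionProb μ A x := by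
  unfold extinctionProb
  refine measureReal_mono ?_ (measure_ne_top _ _)
  intro ω hω
  simp only [Set.mem_ofPred_eq] at hω ⊢
  rw [nhds_discrete, tendsto_pure] at hω ⊢
  filter_upwards [hω] with n hn
  rw [countIn_eq_zero] at hn ⊢
  exact fun y hy hA => hn y hy (h hA)

lemma fixed_mem_ext [Countable X] {μ : X → PMF (X →₀ ℕ)} (hfin : (fixedPoints μ).Finite)
    {s : X → ℝ} (hs : s ∈ fixedPoints μ) : s ∈ extinctionVectors μ := by
  let q : ℕ → X → ℝ := fun k => extinctionProb μ {y | s y ≤ 1 - 1 / ((k : ℝ) + 1)}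
  have hq : ∀ k, q k ∈ fixedPoints μ := fun k => extinctionProb_fixed μ _
  have hanti : Antitone q := by
    intro k l hkl x
    refine extinctionProb_anti μ ?_ x
    intro y hy
    simp only [Set.mem_ofPred_eq] at hy ⊢
    have : 1 / ((l : ℝ) + 1) ≤ 1 / ((k : ℝ) + 1) := by
      refine one_div_le_one_div_of_le (by positivity) ?_
      have : (k : ℝ) ≤ l := by exact_mod_cast hkl
      linarith
    linarith
  have hfr : (Set.range q).Finite := hfin.subset (by rintro _ ⟨k, rfl⟩; exact hq k)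
  obtain ⟨m, ⟨K, rfl⟩, hmin⟩ := hfr.exists_minimal ⟨q 0, ⟨0, rfl⟩⟩
  have hK : ∀ k, q K ≤ q k := by
    intro k
    rcases le_total K k with h | h
    · exact hmin ⟨k, rfl⟩ (hanti h)
    · exact hanti h
  have hle : ∀ x, q K x ≤ s x := by
    intro x
    refine le_of_forall_pos_lt_add fun δ hδ => ?_
    obtain ⟨k, hk⟩ := exists_extinctionProb_lt hs hfin x hδ
    exact lt_of_le_of_lt (hK k x) hk
  refine ⟨{y | s y ≤ 1 - 1 / ((K : ℝ) + 1)}, ?_⟩
  ext x
  refine le_antisymm ?_ (hle x)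
  refine le_extinctionProb hs hfin (Nat.one_div_pos_of_nat) ?_ x
  rw [div_le_one (by positivity)]
  linarith [(Nat.cast_nonneg K : (0 : ℝ) ≤ K)]

end Prob

end Pool.Agent.Lib.MP_f48e0c_pr
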